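import Mathlib
import Pool.Agent.Y205.AV.Large
import Pool.Agent.Y210.EF.Expo

set_option autoImplicit false

/-!
# One explicit configuration of points at which all large systems are non-special

Let `P` be `n` points of the complex plane: either the explicit points with the affine coordinates
`exp (2 ^ (k / (2 n)))`, `k = 0, …, 2 n - 1`, or any points whose `2 n` coordinates are algebraically
independent over `ℚ`. Then ALL large systems (`Pool.Agent.Y205.AV.Large`) are non-special at once.
-/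

namespace Pool.Agent.Results.MP_d3128a_ag.ExplicitConfiguration

open MvPolynomial Pool.Agent.Y205.AV

/-- The `n` points with the affine coordinates `exp (2 ^ (k / (2 n)))`, `k = 0, 1, …, 2 n - 1`. -/
noncomputable def explicitPoints (n : ℕ) : Fin n → Fin 2 → ℂ := fun i j =>
  Complex.exp (((2 : ℝ) ^ (((2 * (i : ℕ) + (j : ℕ) : ℕ) : ℝ) / (2 * n)) : ℝ) : ℂ)

theorem clear {σ : Type*} (F : MvPolynomial σ ℚ) : ∃ (N : ℕ) (G : MvPolynomial σ ℤ), 0 < N ∧
    G.map (Int.castRingHom ℚ) = C (N : ℚ) * F := by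
  induction F using MvPolynomial.induction_on with
  | C a =>
    refine ⟨a.den, C a.num, a.den_pos, ?_⟩
    rw [map_C, ← C_mul]
    congr 1
    rw [mul_comm]
    exact (Rat.mul_den_eq_num a).symm
  | add p q hp hq =>
    obtain ⟨N1, G1, h1, e1⟩ := hp
    obtain ⟨N2, G2, h2, e2⟩ := hq
    refine ⟨N1 * N2, C (N2 : ℤ) * G1 + C (N1 : ℤ) * G2, Nat.mul_pos h1 h2, ?_⟩
    rw [map_add, map_mul, map_mul, map_C, map_C, e1, e2]
    push_cast
    rw [C_mul]
    simp only [eq_intCast, Int.cast_natCast]
    ring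
  | mul_X p i hp =>
    obtain ⟨N, G, h1, e1⟩ := hp
    refine ⟨N, G * X i, h1, ?_⟩
    rw [map_mul, map_X, e1]
    ring

theorem explicit_indep {n : ℕ} (hn : 1 ≤ n) :
    AlgebraicIndependent ℚ (fun ij : Fin n × Fin 2 => explicitPoints n ij.1 ij.2) := by
  rw [algebraicIndependent_iff]
  intro F hF
  by_contra hne
  obtain ⟨N, G, hN, hG⟩ := clear F
  have hG0 : G ≠ 0 := by
    rintro rfl
    rw [map_zero] at hG
    have h1 : C (N : ℚ) * F ≠ 0 := mul_ne_zero (by
      rw [Ne, C_eq_zero]
      exact_mod_cast hN.ne') hne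
    exact h1 hG.symm
  apply Pool.Agent.Y210.EF.exp_points hn hG0
  have h1 : MvPolynomial.aeval (fun ij : Fin n × Fin 2 => explicitPoints n ij.1 ij.2)
      (G.map (Int.castRingHom ℚ)) = 0 := by
    rw [hG, map_mul, hF, mul_zero]
  rw [MvPolynomial.aeval_def, MvPolynomial.eval₂_map] at h1
  have h2 : (algebraMap ℚ ℂ).comp (Int.castRingHom ℚ) = Int.castRingHom ℂ := RingHom.ext_int _ _
  rw [h2] at h1
  exact h1

/-- **Main result.** The dimension of the space of the forms of degree `d` with multiplicity at least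
`w i` at `(P i 0 : P i 1 : 1)` for all `i` is `max (C(d+2,2) - ∑ C(w_i+1,2), 0)` for all large `(d; w)`. -/
theorem result (n : ℕ) (hn : 1 ≤ n) (P : Fin n → Fin 2 → ℂ)
    (hP : P = explicitPoints n ∨
      AlgebraicIndependent ℚ (fun ij : Fin n × Fin 2 => P ij.1 ij.2))
    (d : ℕ) (w : Fin n → ℕ) (hL : Large d w) :
    Module.finrank ℂ
      ↥(homogeneousSubmodule (Fin 3) ℂ d ⊓ Submodule.restrictScalars ℂ
        (⨅ i : Fin n, Ideal.span
          ({X 0 - C (P i 0) * X 2, X 1 - C (P i 1) * X 2} : Set (MvPolynomial (Fin 3) ℂ)) ^ (w i))) =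
      (d + 2).choose 2 - ∑ i, (w i + 1).choose 2 := by
  have hP0 : AlgebraicIndependent ℚ (fun ij : Fin n × Fin 2 => P ij.1 ij.2) := by
    rcases hP with rfl | hP
    · exact explicit_indep hn
    · exact hP
  exact large_exp hL hP0

end Pool.Agent.Results.MP_d3128a_ag.ExplicitConfiguration
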