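import Pool.Agent.Y205.AV.Inf0

/-!
# Non-speciality in all degrees, measured by the number of the different multiplicities

Let `m 1, ..., m s ≥ 0`, not all zero, be multiplicities at general points of the complex
projective plane, `μ` an upper bound for them and `r` an upper bound for the number of different
nonzero values. If `∑ m i ^ 2 ≥ 40000 * r * μ ^ 2`, then the system of the curves of degree `d` is
non-special for EVERY `d`.
-/

set_option autoImplicit false

namespace Pool.Agent.Results.MP_d3128a_ag.NumberOfMultiplicities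

open Pool.Agent

theorem result (s r μ : ℕ) (m : Fin s → ℕ) (hm : ∃ i, m i ≠ 0) (hμ : ∀ i, m i ≤ μ)
    (hr : ((Finset.univ.image m).erase 0).card ≤ r) (h : 40000 * r * μ ^ 2 ≤ ∑ i, m i ^ 2) :
    ∃ F : MvPolynomial (Fin s × Fin 2) ℂ, F ≠ 0 ∧
      ∀ P : Fin s → Fin 2 → ℂ,
        MvPolynomial.eval (fun ij : Fin s × Fin 2 => P ij.1 ij.2) F ≠ 0 →
        ∀ d : ℕ,
          Module.finrank ℂ
            ↥(MvPolynomial.homogeneousSubmodule (Fin 3) ℂ d ⊓
              Submodule.restrictScalars ℂ
                (⨅ i : Fin s,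
                  (Ideal.span
                    ({MvPolynomial.X 0 - MvPolynomial.C (P i 0) * MvPolynomial.X 2,
                      MvPolynomial.X 1 - MvPolynomial.C (P i 1) * MvPolynomial.X 2} :
                      Set (MvPolynomial (Fin 3) ℂ))) ^ (m i)))
          = Nat.choose (d + 2) 2 - ∑ i, Nat.choose (m i + 1) 2 := by
  obtain ⟨F, hF, hF'⟩ := Y205.AV.inf_all0 hm hμ hr h
  refine ⟨F.map (algebraMap ℚ ℂ), H932R3.map_ne_zero_of hF, fun P hP d => ?_⟩
  rw [MvPolynomial.eval_map] at hP
  exact hF' P hP d

end Pool.Agent.Results.MP_d3128a_ag.NumberOfMultiplicities
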