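import Pool.Agent.Y205.AV.Three

/-!
# Every special system is small

Let `m 1, ..., m s` be ANY multiplicities at general points of the complex projective plane and `μ`
an upper bound for them. The system of the curves of degree `d` is non-special if

* `∑ m i + 4 |(d + 2).choose 2 - ∑ (m i + 1).choose 2| ≥ 25000 (μ + 1) ^ 2`, or
* `|(d + 2).choose 2 - ∑ (m i + 1).choose 2| ≥ ∑ m i + 26 (μ + 1) ^ 2`, or
* `(d + 1) (d + 2) ≥ 12500 (μ + 1) ^ 2 (2 μ + 3)` (for instance `d ≥ 178 (μ + 1) ^ (3 / 2)`).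

In particular: all systems with `∑ m i ≥ 25000 (μ + 1) ^ 2` are non-special in every degree, and for
every vector only those degrees remain in which the virtual dimension is at most
`6250 (μ + 1) ^ 2` in absolute value.
-/

set_option autoImplicit false

namespace Pool.Agent.Results.MP_d3128a_ag.SpecialSystemsAreSmall

open Pool.Agent

theorem result (s : ℕ) (m : Fin s → ℕ) :
    ∃ F : MvPolynomial (Fin s × Fin 2) ℂ, F ≠ 0 ∧
      ∀ P : Fin s → Fin 2 → ℂ,
        MvPolynomial.eval (fun ij : Fin s × Fin 2 => P ij.1 ij.2) F ≠ 0 →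
        ∀ d μ : ℕ, (∀ i, m i ≤ μ) →
          (25000 * ((μ : ℤ) + 1) ^ 2 ≤ ∑ i, (m i : ℤ) +
              4 * |((d + 2).choose 2 : ℤ) - ∑ i, ((m i + 1).choose 2 : ℤ)| ∨
            ∑ i, (m i : ℤ) + 26 * ((μ : ℤ) + 1) ^ 2 ≤
              |((d + 2).choose 2 : ℤ) - ∑ i, ((m i + 1).choose 2 : ℤ)| ∨
            12500 * (μ + 1) ^ 2 * (2 * μ + 3) ≤ (d + 1) * (d + 2)) →
          Module.finrank ℂ
            ↥(MvPolynomial.homogeneousSubmodule (Fin 3) ℂ d ⊓
              Submodule.restrictScalars ℂ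
                (⨅ i : Fin s,
                  (Ideal.span
                    ({MvPolynomial.X 0 - MvPolynomial.C (P i 0) * MvPolynomial.X 2,
                      MvPolynomial.X 1 - MvPolynomial.C (P i 1) * MvPolynomial.X 2} :
                      Set (MvPolynomial (Fin 3) ℂ))) ^ (m i)))
          = Nat.choose (d + 2) 2 - ∑ i, Nat.choose (m i + 1) 2 := by
  obtain ⟨F, hF, hF'⟩ := Y205.AV.big_vectors m
  refine ⟨F.map (algebraMap ℚ ℂ), H932R3.map_ne_zero_of hF, fun P hP d μ hμ h => ?_⟩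
  rw [MvPolynomial.eval_map] at hP
  refine hF' P hP d μ hμ ?_
  have h2 := Y205.AV.gap_eq m d
  rcases h with h | h | h
  · left
    have h3 : ((25000 * (μ + 1) ^ 2 : ℕ) : ℤ) ≤ ((∑ i, m i + 2 * Y205.AV.gap m d : ℕ) : ℤ) := by
      push_cast
      rw [h2]
      linarith
    exact_mod_cast h3
  · right
    have h3 : ((2 * ∑ i, m i + 52 * (μ + 1) ^ 2 : ℕ) : ℤ) ≤ ((Y205.AV.gap m d : ℕ) : ℤ) := by
      push_cast
      rw [h2]
      linarith
    exact_mod_cast h3
  · left
    by_contra hcon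
    push Not at hcon
    have := Y205.AV.deg_lt hμ hcon
    omega

end Pool.Agent.Results.MP_d3128a_ag.SpecialSystemsAreSmall
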